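import Pool.Agent.Run7.h479.XX.Mult

/-!
# The Breuil–Mézard conjecture for `GL_2(K)`: few pairs at a time

Let `W` be the finite set of the Serre weights and `T` the set of the pairs `t = (λ, τ)`; the numbers
`n_t(σ)` do not depend on the residual representation. There is a set `F₀` of at most `|W|` pairs, which depends on
these numbers only, such that for EVERY residual representation, with the multiplicities `e(t)`:

* Q1 holds for it if and only if the identity can be solved with `μ_σ ≥ 0` for the pairs in `F₀`, and for every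
  single pair `t` it can be solved with integers `μ_σ` of any sign for `t` and the pairs in `F₀`;
* if this is so, every solution of the identities for `F₀` solves all of them;
* Q1 holds for it if and only if it holds for every set of at most `|W| + 1` pairs, with `μ_σ` depending on the set.

So the uniformity of the `μ_σ` in infinitely many pairs `(λ, τ)` is a question on `|W| + 1` pairs at a time, of which
all but one are fixed, the same for all residual representations. For `GL_2(K)` and `q = |k|` there are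
`|W| = q (q - 1)` Serre weights.
-/

set_option autoImplicit false

namespace Pool.Agent.Results.MP_39033f_nt.FewPairsAtATime

variable {T W : Type} [Fintype W]

/-- The family `μ` satisfies the identity `e(t) = ∑_σ n_t(σ) μ_σ` for the pair `t = (λ, τ)`. -/
def Holds (n : T → W → ℕ) (e : T → ℕ) (μ : W → ℤ) (t : T) : Prop :=
  (e t : ℤ) = ∑ σ, (n t σ : ℤ) * μ σ

/-- **Theorem.** Let `W` be a finite set (the Serre weights), `T` any set (the pairs `(λ, τ)`) and `n_t(σ)`
non-negative integers. There is a set `F₀` of at most `|W|` elements of `T`, which depends on `n` only, such that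
for every function `e : T → ℕ` (the multiplicities for any `ρ̄`):

* there are `μ_σ ≥ 0` with the identity for all `t ∈ T` if and only if there are `μ_σ ≥ 0` with the identity for
  all `t ∈ F₀`, and for every single `t ∈ T` there are integers `μ_σ` of any sign with the identity for `t` and all
  elements of `F₀`;
* if this is so, then every family of integers `μ_σ` with the identity for `t ∈ F₀` satisfies it for all `t ∈ T`;
* there are `μ_σ ≥ 0` with the identity for all `t ∈ T` if and only if for every set of at most `|W| + 1` elements of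
  `T` there are `μ_σ ≥ 0`, depending on the set, with the identity for its elements. -/
theorem result (n : T → W → ℕ) : ∃ F₀ : Finset T, F₀.card ≤ Fintype.card W ∧ ∀ e : T → ℕ,
    ((∃ μ : W → ℤ, (∀ σ, 0 ≤ μ σ) ∧ ∀ t, Holds n e μ t) ↔
      (∃ μ : W → ℤ, (∀ σ, 0 ≤ μ σ) ∧ ∀ t ∈ F₀, Holds n e μ t) ∧
        ∀ t, ∃ μ : W → ℤ, (∀ s ∈ F₀, Holds n e μ s) ∧ Holds n e μ t) ∧
    ((∃ μ : W → ℤ, ∀ t, Holds n e μ t) → ∀ μ : W → ℤ, (∀ t ∈ F₀, Holds n e μ t) →
      ∀ t, Holds n e μ t) ∧
    ((∃ μ : W → ℤ, (∀ σ, 0 ≤ μ σ) ∧ ∀ t, Holds n e μ t) ↔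
      ∀ F : Finset T, F.card ≤ Fintype.card W + 1 → ∃ μ : W → ℤ, (∀ σ, 0 ≤ μ σ) ∧
        ∀ t ∈ F, Holds n e μ t) := by
  classical
  obtain ⟨F₀, hF₀, hc⟩ := Run7.h479.XX.Mult.exists_spanning n
  refine ⟨F₀, hF₀, fun e => ?_⟩
  have tr : ∀ (μ μ' : W → ℤ) (t : T), (∀ s ∈ F₀, Holds n e μ s) → (∀ s ∈ F₀, Holds n e μ' s) →
      Holds n e μ' t → Holds n e μ t := by
    intro μ μ' t h h' ht
    obtain ⟨c, hct⟩ := hc t
    exact Run7.h479.XX.Mult.transfer (e := fun s => (e s : ℤ)) hct h h' ht
  have h1 : (∃ μ : W → ℤ, (∀ σ, 0 ≤ μ σ) ∧ ∀ t, Holds n e μ t) ↔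
      (∃ μ : W → ℤ, (∀ σ, 0 ≤ μ σ) ∧ ∀ t ∈ F₀, Holds n e μ t) ∧
        ∀ t, ∃ μ : W → ℤ, (∀ s ∈ F₀, Holds n e μ s) ∧ Holds n e μ t := by
    constructor
    · rintro ⟨μ, hμ, h⟩
      exact ⟨⟨μ, hμ, fun t _ => h t⟩, fun t => ⟨μ, fun s _ => h s, h t⟩⟩
    · rintro ⟨⟨μ, hμ, h⟩, h'⟩
      refine ⟨μ, hμ, fun t => ?_⟩
      obtain ⟨μ', h2, h3⟩ := h' t
      exact tr μ μ' t h h2 h3
  refine ⟨h1, ?_, ?_⟩
  · rintro ⟨μ', h'⟩ μ h t
    exact tr μ μ' t h (fun s _ => h' s) (h' t)
  · constructor
    · rintro ⟨μ, hμ, h⟩ F _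
      exact ⟨μ, hμ, fun t _ => h t⟩
    · intro h
      rw [h1]
      refine ⟨h F₀ (by omega), fun t => ?_⟩
      obtain ⟨μ, -, h2⟩ := h (insert t F₀) ((Finset.card_insert_le _ _).trans (by omega))
      exact ⟨μ, fun s hs => h2 s (Finset.mem_insert_of_mem hs), h2 t (Finset.mem_insert_self _ _)⟩

end Pool.Agent.Results.MP_39033f_nt.FewPairsAtATime
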